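import Pool.Agent.helper62.MS.SpecA
import Pool.Agent.helper62.QU.All

/-!
# MP_07c750, row ms:AS3 (time averages)
-/

set_option autoImplicit false

open scoped MatrixGroups ContDiff Topology UpperHalfPlane ComplexConjugate
open UpperHalfPlane MeasureTheory Filter Set

namespace Pool.Agent.MS

open Pool.Agent.RS

/-- the time average -/
theorem AS3_av (haM : Continuous aM) (h : ℍ → ℝ) (T : ℝ) (hc : Continuous h) (h01 : ∀ z, 0 ≤ h z ∧ h z ≤ 1)
    (hT : 0 < T) : Continuous (fun y : SL(2, ℝ) => ∫ t in (0 : ℝ)..T, h ((y * aM (-t)) • I)) ∧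
      ∀ y : SL(2, ℝ), 0 ≤ ∫ t in (0 : ℝ)..T, h ((y * aM (-t)) • I) ∧
        ∫ t in (0 : ℝ)..T, h ((y * aM (-t)) • I) ≤ T := by
  have hc0 : Continuous (Function.uncurry fun (g : SL(2, ℝ)) (t : ℝ) => h ((g * aM (-t)) • I)) := by
    have h1 : Continuous (fun p : SL(2, ℝ) × ℝ => (p.1 * aM (-p.2)) • I) :=
      (continuous_fst.mul (haM.comp continuous_snd.neg)).smul continuous_const
    exact hc.comp h1
  refine ⟨intervalIntegral.continuous_parametric_intervalIntegral_of_continuous' hc0 0 T, fun y => ⟨?_, ?_⟩⟩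
  · exact intervalIntegral.integral_nonneg hT.le fun t _ => (h01 _).1
  · have h2 : Continuous (fun t : ℝ => h ((y * aM (-t)) • I)) := by
      have h3 : Continuous (fun t : ℝ => (y * aM (-t)) • I) :=
        (continuous_const.mul (haM.comp continuous_neg)).smul continuous_const
      exact hc.comp h3
    have h1 : ∫ t in (0 : ℝ)..T, h ((y * aM (-t)) • I) ≤ ∫ _t in (0 : ℝ)..T, (1 : ℝ) := by
      refine intervalIntegral.integral_mono_on hT.le (h2.intervalIntegrable 0 T)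
        (continuous_const.intervalIntegrable 0 T) fun t _ => (h01 _).2
    rw [intervalIntegral.integral_const, smul_eq_mul, mul_one, sub_zero] at h1
    exact h1

/-- the Fubini part -/
theorem AS3_fub (hGLC : GLC_stmt) (F : Set ℍ) (h : ℍ → ℝ) (P : SL(2, ℝ) → ℂ)
    (q r T M η m : ℝ) (hfin : mG (dG F) < ⊤) (hc : Continuous h) (h01 : ∀ z, 0 ≤ h z ∧ h z ≤ 1)
    (hP : Continuous P) (hPm : ∀ g, ‖P g‖ ≤ m) (hr : 0 ≤ r) (hT : 0 < T) (hq : 0 ≤ q)
    (hη : 1 - η ≤ r * iR F (fun g => ‖P g‖ ^ 2))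
    (hM : ∀ t : ℝ, 0 ≤ t → t ≤ T → r * iR F (fun g => h ((g * aM (-t)) • I) * ‖P g‖ ^ 2) ≤ M) :
    q * (1 - η - r * ∫ y in dG F ∩ Dn h q T, ‖P y‖ ^ 2 ∂mG) ≤ M := by
  obtain ⟨hlc, hsc, -, haM, -⟩ := hGLC
  have : LocallyCompactSpace SL(2, ℝ) := hlc
  have : SecondCountableTopology SL(2, ℝ) := hsc
  have hfm : IsFiniteMeasure (mG.restrict (dG F)) := ⟨by rw [Measure.restrict_apply_univ]; exact hfin⟩
  have hc0 : Continuous (Function.uncurry fun (g : SL(2, ℝ)) (t : ℝ) => h ((g * aM (-t)) • I)) := by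
    have h1 : Continuous (fun p : SL(2, ℝ) × ℝ => (p.1 * aM (-p.2)) • I) :=
      (continuous_fst.mul (haM.comp continuous_snd.neg)).smul continuous_const
    exact hc.comp h1
  have hcont : Continuous (Function.uncurry fun (g : SL(2, ℝ)) (t : ℝ) => h ((g * aM (-t)) • I) * ‖P g‖ ^ 2) :=
    hc0.mul ((hP.comp continuous_fst).norm.pow 2)
  have hm0 : 0 ≤ m := (norm_nonneg _).trans (hPm 1)
  have hp2 : ∀ g, ‖P g‖ ^ 2 ≤ m ^ 2 := fun g => pow_le_pow_left₀ (norm_nonneg _) (hPm g) 2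
  have hb : ∀ g t, ‖h ((g * aM (-t)) • I) * ‖P g‖ ^ 2‖ ≤ m ^ 2 := by
    intro g t
    rw [Real.norm_eq_abs, abs_of_nonneg (mul_nonneg (h01 _).1 (by positivity))]
    have h1 := hp2 g
    have h2 := (h01 ((g * aM (-t)) • I)).2
    have h3 := (h01 ((g * aM (-t)) • I)).1
    nlinarith [sq_nonneg ‖P g‖]
  have hint : Integrable (Function.uncurry fun (g : SL(2, ℝ)) (t : ℝ) => h ((g * aM (-t)) • I) * ‖P g‖ ^ 2)
      ((mG.restrict (dG F)).prod ((volume : Measure ℝ).restrict (Ioc 0 T))) := by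
    refine Integrable.of_bound hcont.aestronglyMeasurable (m ^ 2) (Eventually.of_forall fun p => ?_)
    exact hb p.1 p.2
  obtain ⟨hAc, hAb⟩ := AS3_av haM h T hc h01 hT
  have hDm : MeasurableSet (Dn h q T) := measurableSet_lt hAc.measurable measurable_const
  obtain ⟨A, hA⟩ : ∃ A : SL(2, ℝ) → ℝ, A = fun y => ∫ t in (0 : ℝ)..T, h ((y * aM (-t)) • I) := ⟨_, rfl⟩
  rw [← hA] at hAc
  have hAy : ∀ y, A y = ∫ t in (0 : ℝ)..T, h ((y * aM (-t)) • I) := fun y => by rw [hA]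
  have hA0 : ∀ y, 0 ≤ A y := fun y => by rw [hAy]; exact (hAb y).1
  have hAT : ∀ y, A y ≤ T := fun y => by rw [hAy]; exact (hAb y).2
  have hAD : ∀ y, y ∉ Dn h q T → q * T ≤ A y := fun y hy => by rw [hAy]; exact not_lt.1 hy
  -- Fubini
  have e1 : (∫ g, A g * ‖P g‖ ^ 2 ∂(mG.restrict (dG F))) =
      ∫ g, (∫ t in Ioc 0 T, h ((g * aM (-t)) • I) * ‖P g‖ ^ 2) ∂(mG.restrict (dG F)) := by
    congr 1
    funext g
    rw [hAy, intervalIntegral.integral_of_le hT.le, integral_mul_const]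
  have e2 : r * ∫ g, A g * ‖P g‖ ^ 2 ∂(mG.restrict (dG F)) ≤ T * M := by
    rw [e1, integral_integral_swap hint, ← integral_const_mul]
    have h2 : ∫ t in Ioc 0 T, r * (∫ g, h ((g * aM (-t)) • I) * ‖P g‖ ^ 2 ∂(mG.restrict (dG F))) ≤
        ∫ t in Ioc 0 T, M := by
      refine setIntegral_mono_on (hint.integral_prod_right.const_mul r) ?_ measurableSet_Ioc ?_
      · exact integrableOn_const (by simp)
      · intro t ht
        exact hM t ht.1.le ht.2
    have h3 : ∫ t in Ioc 0 T, M = T * M := by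
      rw [setIntegral_const]
      simp [hT.le]
    rwa [h3] at h2
  -- the lower bound
  have hPi : Integrable (fun g => ‖P g‖ ^ 2) (mG.restrict (dG F)) := by
    refine Integrable.of_bound (hP.norm.pow 2).aestronglyMeasurable (m ^ 2) (Eventually.of_forall fun g => ?_)
    rw [Real.norm_eq_abs, abs_of_nonneg (by positivity)]
    exact hp2 g
  have hAi : Integrable (fun g => A g * ‖P g‖ ^ 2) (mG.restrict (dG F)) := by
    refine Integrable.of_bound (hAc.mul (hP.norm.pow 2)).aestronglyMeasurable (T * m ^ 2)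
      (Eventually.of_forall fun g => ?_)
    rw [Real.norm_eq_abs, abs_of_nonneg (mul_nonneg (hA0 g) (by positivity))]
    exact mul_le_mul (hAT g) (hp2 g) (by positivity) hT.le
  have hDi : Integrable ((Dn h q T).indicator (fun g => ‖P g‖ ^ 2)) (mG.restrict (dG F)) := hPi.indicator hDm
  have e3 : ∫ g, q * T * (‖P g‖ ^ 2 - (Dn h q T).indicator (fun g => ‖P g‖ ^ 2) g) ∂(mG.restrict (dG F)) ≤
      ∫ g, A g * ‖P g‖ ^ 2 ∂(mG.restrict (dG F)) := by
    refine integral_mono ((hPi.sub hDi).const_mul _) hAi fun g => ?_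
    by_cases hg : g ∈ Dn h q T
    · simp only [indicator_of_mem hg, sub_self, mul_zero]
      exact mul_nonneg (hA0 g) (by positivity)
    · simp only [indicator_of_notMem hg, sub_zero]
      exact mul_le_mul_of_nonneg_right (hAD g hg) (by positivity)
  rw [integral_const_mul, integral_sub hPi hDi, setIntegral_indicator hDm] at e3
  have e4 : r * (q * T * ((∫ g in dG F, ‖P g‖ ^ 2 ∂mG) - ∫ y in dG F ∩ Dn h q T, ‖P y‖ ^ 2 ∂mG)) ≤ T * M :=
    (mul_le_mul_of_nonneg_left e3 hr).trans e2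
  have e5 : T * (q * (r * iR F (fun g => ‖P g‖ ^ 2) - r * ∫ y in dG F ∩ Dn h q T, ‖P y‖ ^ 2 ∂mG)) ≤ T * M := by
    refine le_trans (le_of_eq ?_) e4
    unfold iR
    ring
  have e6 := le_of_mul_le_mul_left e5 hT
  refine le_trans (mul_le_mul_of_nonneg_left ?_ hq) e6
  linarith

/-- **Row AS3**. -/
theorem AS3_proof (hNM3 : NM3_stmt) (hEQ4 : EQ4_stmt) (hQM3 : QM3_stmt) (hSTB : STB_stmt)
    (hGLC : GLC_stmt) (hGFD : GFD_stmt) (hGBD : GBD_stmt) (hGWB : GWB_stmt) (hFL0 : FL0_stmt)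
    (hCV1 : CV1_stmt) : AS3_stmt := by
  intro Γ F h q hΓ hF hI hCD h01 hq0 hq1 η hη
  obtain ⟨w0, hw0, hw08, hQ⟩ := hQM3 Γ F h hΓ hF hI hCD h01 (η / 4) (by positivity)
  refine ⟨w0, hw0, hw08, fun w β0 α0 hw hww hβ hα T hT => ?_⟩
  obtain ⟨-, hst, -, hstB, hmono, -⟩ := hSTB
  have hβ4 : BB (1 / 4) β0 := (hmono w (1 / 4) β0 (by linarith)).2.2 hβ
  have hα4 : BA (1 / 4) α0 := (hmono w (1 / 4) α0 (by linarith)).2.1 hα
  have hα8 : BA (1 / 8) α0 := (hmono w (1 / 8) α0 (by linarith)).2.1 hα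
  have hβT : BB (1 / 4) (st (-T) β0) := by
    have h1 := hstB w (-T) β0 hβ
    refine (hmono (Real.exp (-T) * w) (1 / 4) _ ?_).2.2 h1
    have h2 : Real.exp (-T) ≤ 1 := Real.exp_le_one_iff.2 (by linarith)
    nlinarith
  obtain ⟨K, r1, hK, hr1, hQM⟩ := hQ w β0 α0 hw hww hβ hα
  obtain ⟨r2, hr2, hN⟩ := hNM3 Γ F α0 (st (-T) β0) hΓ hF hα4 hβT η hη
  obtain ⟨r3, hr3, hE⟩ := hEQ4 Γ F β0 α0 α0 T hΓ hF hβ4 hα8 hα8 hT.le (η / 4) (by positivity)
  refine ⟨max (max r1 r2) (max r3 (K * Real.exp T)), ?_, ?_⟩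
  · exact hr1.trans ((le_max_left _ _).trans (le_max_left _ _))
  intro r φ hr hφ hnn
  have hrr1 : r1 ≤ r := ((le_max_left _ _).trans (le_max_left _ _)).trans hr
  have hrr2 : r2 ≤ r := ((le_max_right _ _).trans (le_max_left _ _)).trans hr
  have hrr3 : r3 ≤ r := ((le_max_left _ _).trans (le_max_right _ _)).trans hr
  have hrK : K * Real.exp T ≤ r := ((le_max_right _ _).trans (le_max_right _ _)).trans hr
  have hr0 : 0 ≤ r := by linarith
  obtain ⟨hdm, hdv, hfin, -⟩ := (hGFD Γ F hΓ hF).1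
  -- the packet is a continuous function
  have ca := QU.A_CA1 ℂ
  have hcd0 : ∀ f : ℍ → ℂ, QU.CD 2 f → Continuous f := fun f hf =>
    (ca.1 f).1 (ca.2.1 f 0 2 (by norm_num) hf)
  have hTB : TB (1 / 4) (pc (st (-T) β0) α0) := (hCV1.2.2 (1 / 4) α0 (st (-T) β0) hα4.1 hβT.1).1
  obtain ⟨heS, hecs⟩ := hFL0.2.1 (1 / 4) r _ hTB
  have hec : Continuous (pk r (pc (st (-T) β0) α0)) := (ca.1 _).1 (ca.2.1 _ 0 ∞ (by simp) heS)
  have hIφ : InvC Γ φ := ⟨hcd0 φ hφ.1, hφ.2.1⟩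
  have hInv : InvG Γ (Wf (pk r (pc (st (-T) β0) α0)) φ) := (hGWB Γ _ φ hΓ hec hecs hIφ).1
  obtain ⟨m, hm⟩ := (hGBD Γ ℂ _ hΓ hInv).1
  have hNφ := (hN r hrr2).2 φ hφ
  rw [hnn, mul_one] at hNφ
  have hlow : 1 - η ≤ r * iR F (fun g => ‖Wf (pk r (pc (st (-T) β0) α0)) φ g‖ ^ 2) := by
    have h1 := (abs_le.1 hNφ).1
    unfold qn at h1
    linarith
  have hM : ∀ t : ℝ, 0 ≤ t → t ≤ T → r * iR F (fun g => h ((g * aM (-t)) • I) *
      ‖Wf (pk r (pc (st (-T) β0) α0)) φ g‖ ^ 2) ≤ (∫ z in F, h z * ‖φ z‖ ^ 2) + η := by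
    intro t ht0 htT
    have hcont : Continuous (fun g : SL(2, ℝ) => h ((g * aM (T - t)) • I)) :=
      hI.1.comp ((continuous_id.mul continuous_const).smul continuous_const)
    have h1 := hE r φ hrr3 hφ (fun g => h ((g * aM (T - t)) • I)) hcont.measurable ?_ ?_
    · have h2 := hQM r φ hrr1 hφ (T - t) (by linarith) ?_
      · have h3 : ∀ g : SL(2, ℝ), g * aM (-T) * aM (T - t) = g * aM (-t) := by
          intro g
          have h4 : aM (-T + (T - t)) = aM (-T) * aM (T - t) := hGLC.2.2.2.2.2.2.2.2.2.2.1 _ _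
          rw [mul_assoc, ← h4]
          congr 2
          ring
        simp only [h3] at h1
        rw [hnn, mul_one] at h1 h2
        have h5 := (abs_le.1 h1).2
        unfold pf at h5 h2
        linarith
      · rw [le_div_iff₀ hK]
        have h3 : Real.exp (T - t) ≤ Real.exp T := Real.exp_le_exp.2 (by linarith)
        nlinarith
    · intro g
      rw [abs_of_nonneg (h01 _).1]
      exact (h01 _).2
    · intro γ g
      rw [mul_assoc, mul_smul]
      exact hI.2 γ _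
  exact AS3_fub hGLC F h _ q r T _ η m hfin hI.1 h01 hInv.1 hm hr0 hT hq0 hlow hM

end Pool.Agent.MS
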